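import Pool.Agent.R360.GK.Final

/-!
# Gekeler's conjecture: the converse to the Okada-Goss theorem

The definitions are in `Pool/Agent/R360/GK/Defs.lean` and `Pool/Agent/R360/GK/Defs2.lean`.
-/

set_option autoImplicit false

open Polynomial
open Pool.Agent.R360.GK (IsCyclotomic PrimeDvd bernoulliCarlitz)
open Pool.Agent.R360.GKS (component)

namespace Pool.Agent.Results.MP_a90b0f_nt.GekelerConjecture

/-- Let `P` be a monic irreducible polynomial of degree `d` over `Fq`, `F = K(lam)` the `P`-th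
Carlitz cyclotomic field, `0 < k < q ^ d - 1`, `(q - 1) ∣ k`. If `P` divides the Bernoulli-Carlitz
number of index `k'` for every `0 < k' < q ^ d - 1` which is congruent to some `p ^ m k` modulo
`q ^ d - 1`, then the component `C̃(w ^ k)` of the `p`-primary part of the class group is
not zero. -/
theorem result (p : ℕ) [Fact p.Prime] (Fq : Type) [Field Fq] [Fintype Fq] [CharP Fq p]
    (P : Fq[X]) [Fact (Irreducible P)] (hP : P.Monic)
    (F : Type) [Field F] [Algebra Fq[X] F] [Algebra (RatFunc Fq) F]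
    [IsScalarTower Fq[X] (RatFunc Fq) F] (lam : F) (hlam : IsCyclotomic Fq P F lam) (k : ℕ)
    (hk0 : 0 < k) (hk : k < Fintype.card Fq ^ P.natDegree - 1) (hdvd : (Fintype.card Fq - 1) ∣ k)
    (hB : ∀ k' : ℕ, 0 < k' → k' < Fintype.card Fq ^ P.natDegree - 1 →
      (∃ m : ℕ, k' ≡ p ^ m * k [MOD Fintype.card Fq ^ P.natDegree - 1]) →
      PrimeDvd Fq P (bernoulliCarlitz Fq k')) :
    ∃ x ∈ component p P lam k, x ≠ 0 :=
  Pool.Agent.R360.GKS.gekeler p Fq P hP F lam hlam k hk0 hk hdvd hB

end Pool.Agent.Results.MP_a90b0f_nt.GekelerConjecture
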